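import Pool.Agent.V1197.ZN.Final

set_option autoImplicit false

/-!
# Maximal-volume projections of the cube need not have edges of equal length

For `n = 7` and `k = 3`, no subspace whose seven vectors `P_H e_i` have equal length maximises the
volume of the projection of the unit cube.
-/

namespace Pool.Agent.Results.MP_416390_gt.UnequalEdges

open MeasureTheory Module
open scoped ENNReal

/-- Euclidean `n`-space. -/
abbrev Sp (n : ℕ) : Type := EuclideanSpace ℝ (Fin n)

/-- Linear subspaces of Euclidean `n`-space. -/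
abbrev Sub (n : ℕ) : Type := Submodule ℝ (Sp n)

/-- The unit cube `Q_n = [0,1]^n`. -/
def unitCube (n : ℕ) : Set (Sp n) := {x | ∀ i, x i ∈ Set.Icc (0 : ℝ) 1}

/-- `P_H`: the orthogonal projection onto `H`, as a map to `H`. -/
noncomputable def proj {n : ℕ} (H : Sub n) (x : Sp n) : H := H.orthogonalProjectionOnto x

/-- `P_H(Q_n)`, as a subset of `H`. -/
def shadow {n : ℕ} (H : Sub n) : Set H := proj H '' unitCube n

/-- `F(H)`: the volume, taken inside `H`, of the orthogonal projection of `Q_n` onto `H`. -/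
noncomputable def F {n : ℕ} (H : Sub n) : ℝ≥0∞ := volume (shadow H)

/-- The length of `P_H e_i`. -/
noncomputable def edge {n : ℕ} (H : Sub n) (i : Fin n) : ℝ := ‖proj H (EuclideanSpace.single i 1)‖

/-- All the vectors `P_H e_i` have the same length. -/
def EqualEdges {n : ℕ} (H : Sub n) : Prop := ∀ i j, edge H i = edge H j

/-- `H` has dimension `k`. -/
def HasDim {n : ℕ} (k : ℕ) (H : Sub n) : Prop := finrank ℝ H = k

/-- `H` maximises `F` among the subspaces of dimension `k`. -/
def IsMaximizer {n : ℕ} (k : ℕ) (H : Sub n) : Prop :=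
  HasDim k H ∧ ∀ H' : Sub n, HasDim k H' → F H' ≤ F H

/-- Every three-dimensional `H` in `ℝ^7` with equal edges is beaten strictly by some other
three-dimensional subspace; every maximizer for `(k,n) = (3,7)` has two edges of different length;
and the assertion that for all `1 ≤ k ≤ n` the maximum is attained at some `H` with equal edges
is false. -/
theorem result :
    (∀ H : Sub 7, HasDim 3 H → EqualEdges H → ∃ H' : Sub 7, HasDim 3 H' ∧ F H < F H') ∧
    (∀ H : Sub 7, IsMaximizer 3 H → ∃ i j, edge H i ≠ edge H j) ∧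
    ¬ (∀ n k : ℕ, 1 ≤ k → k ≤ n → ∃ H : Sub n, IsMaximizer k H ∧ EqualEdges H) := by
  have h1 : ∀ H : Sub 7, HasDim 3 H → EqualEdges H → ∃ H' : Sub 7, HasDim 3 H' ∧ F H < F H' :=
    fun H hH he => Pool.Agent.V1197.ZN.final Pool.Agent.V1197.ZN.core H hH he
  refine ⟨h1, ?_, ?_⟩
  · intro H hH
    by_contra hno
    push Not at hno
    obtain ⟨H', h2, h3⟩ := h1 H hH.1 hno
    exact absurd (hH.2 H' h2) (not_le.2 h3)
  · intro h
    obtain ⟨H, hH, he⟩ := h 7 3 (by norm_num) (by norm_num)
    obtain ⟨H', h2, h3⟩ := h1 H hH.1 he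
    exact absurd (hH.2 H' h2) (not_le.2 h3)

end Pool.Agent.Results.MP_416390_gt.UnequalEdges
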